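import Pool.Agent.MP_856573_co.H74.Bas

/-! The objects above and below the line that are read off from the curve. -/

namespace Pool.Agent.MP_856573_co.H74

open Set
open Pool.Agent.MP_31805c_co.H93 (Conn)

namespace OBJ

/-- All data of the situation. -/
structure Ct (V : Type) [Fintype V] [DecidableEq V] where
  G : SimpleGraph V
  F : Finset (Finset V)
  T0 : Finset V
  Hb : Finset V
  q : ℕ → Finset V
  m : ℕ
  σ : Finset (Finset V) → Bool
  tri : Tri G Finset.univ F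
  root : T0 ∈ F
  nd : ∀ f ∈ F, ¬ f ⊆ Hb
  cur : Cur Finset.univ F T0 Hb q m
  sid : Sides (Yg F) (Fl F) q m T0 σ
  deg : ∀ v, ∃ a b, a ≠ b ∧ G.Adj v a ∧ G.Adj v b

namespace Ct

variable {V : Type} [Fintype V] [DecidableEq V] (c : Ct V)

/-- The token lies on the curve. -/
def On (x : Finset V) : Prop := ∃ i ≤ c.m, c.q i = x

/-- The token is an edge. -/
def Ed (E : Finset V) : Prop := ∃ u v, c.G.Adj u v ∧ E = {u, v}

open Classical in
/-- The position of a token on the curve. -/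
noncomputable def ind (x : Finset V) : ℕ := if h : c.On x then h.choose else 0

open Classical in
/-- A face other than the root that contains the edge. -/
noncomputable def phi (E : Finset V) : Finset V :=
  if h : ∃ f ∈ c.F, f ≠ c.T0 ∧ E ⊆ f then h.choose else ∅

open Classical in
/-- The token of the curve through which an edge leaves its hub. -/
noncomputable def tok (E : Finset V) : Finset V :=
  if c.On E then E else if E ⊆ c.Hb then c.phi E else E \ c.Hb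

/-- The edges that get an object of their own. -/
def Tent (E : Finset V) : Prop := Disjoint E c.Hb ∨ (c.On E ∧ ¬ E ⊆ c.Hb)

/-- The drawing of the edge `E` uses the segment from the object `o` to the token `t`. -/
def R (E o t : Finset V) : Prop :=
  (∃ h ∈ E, h ∈ c.Hb ∧ o = {h} ∧ t = c.tok E) ∨
    (o = E ∧ c.Tent E ∧ ((∃ x ∈ E, x ∉ c.Hb ∧ t = {x}) ∨ (t = E ∧ ¬ Disjoint E c.Hb)))

/-- The objects. -/
def Ob (o : Finset V) : Prop := (∃ h ∈ c.Hb, o = {h}) ∨ (c.Ed o ∧ c.Tent o)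

/-- The tokens attached to an object. -/
def Att (o t : Finset V) : Prop := ∃ E, c.Ed E ∧ c.R E o t

open Classical in
/-- The side of a flag at the token. -/
noncomputable def sdt (x : Finset V) : Bool :=
  if h : ∃ g ∈ Fl c.F, x ∈ g then c.σ h.choose else false

open Classical in
/-- The side of an object. -/
noncomputable def side (o : Finset V) : Bool := if c.On o then !(c.sdt (o ∩ c.Hb)) else c.sdt o

/-- The part of the subdivision off the curve that represents an object. -/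
def K (o : Finset V) : Set (Finset V) := {y | ¬ c.On y ∧ (y = o ∨ (c.Ed y ∧ y ∩ c.Hb = o))}

/-- The graph of one side. -/
def GS (β : Bool) : SimpleGraph (Finset V) := Gs (Yg c.F) (Fl c.F) c.σ β

variable {c}

/-! ### Edges and faces -/

theorem fcard {f : Finset V} (hf : f ∈ c.F) : f.card = 3 := (c.tri.face f hf).2.card_eq

theorem Ed.card {E : Finset V} (h : c.Ed E) : E.card = 2 := by
  obtain ⟨u, v, h, rfl⟩ := h
  exact Finset.card_pair h.ne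

theorem Ed.pin {E : Finset V} (h : c.Ed E) {u : V} (hu : u ∈ E) :
    ∃ w, c.G.Adj u w ∧ E = {u, w} := by
  obtain ⟨a, b, h, rfl⟩ := h
  rcases Finset.mem_insert.1 hu with rfl | hu
  · exact ⟨b, h, rfl⟩
  · obtain rfl := Finset.mem_singleton.1 hu
    exact ⟨a, h.symm, Finset.pair_comm _ _⟩

theorem Ed.ne_single {E : Finset V} (h : c.Ed E) (u : V) : E ≠ {u} := by
  intro e
  have := h.card
  rw [e] at this
  simp at this

theorem Ed.not_face {E : Finset V} (h : c.Ed E) : E ∉ c.F := fun hf => by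
  have h1 := h.card
  have h2 := fcard hf
  omega

theorem single_not_face (u : V) : ({u} : Finset V) ∉ c.F := fun hf => by
  have h2 := fcard hf
  simp at h2

theorem Ed.eq_pair {E : Finset V} (h : c.Ed E) {u v : V} (hu : u ∈ E) (hv : v ∈ E) (huv : u ≠ v) :
    E = {u, v} := by
  obtain ⟨w, -, rfl⟩ := h.pin hu
  rcases Finset.mem_insert.1 hv with rfl | hv
  · exact absurd rfl huv
  · rw [Finset.mem_singleton.1 hv]

theorem ex_face {u v : V} (h : c.G.Adj u v) : ∃ f ∈ c.F, f ≠ c.T0 ∧ u ∈ f ∧ v ∈ f := by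
  have h2 := c.tri.two u (Finset.mem_univ _) v (Finset.mem_univ _) h
  obtain ⟨f, hf, hne⟩ := Finset.exists_mem_ne (by rw [h2]; norm_num) c.T0
  rw [Finset.mem_filter] at hf
  exact ⟨f, hf.1, hne, hf.2⟩

theorem phi_spec {E : Finset V} (h : c.Ed E) :
    c.phi E ∈ c.F ∧ c.phi E ≠ c.T0 ∧ E ⊆ c.phi E := by
  have : ∃ f ∈ c.F, f ≠ c.T0 ∧ E ⊆ f := by
    obtain ⟨u, v, h, rfl⟩ := h
    obtain ⟨f, h1, h2, h3, h4⟩ := ex_face h
    exact ⟨f, h1, h2, Finset.insert_subset h3 (Finset.singleton_subset_iff.2 h4)⟩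
  unfold phi
  rw [dif_pos this]
  exact this.choose_spec

theorem pair_inter {h x : V} (hh : h ∈ c.Hb) (hx : x ∉ c.Hb) :
    ({h, x} : Finset V) ∩ c.Hb = {h} := by
  ext y
  simp only [Finset.mem_inter, Finset.mem_insert, Finset.mem_singleton]
  constructor
  · rintro ⟨rfl | rfl, h2⟩
    · rfl
    · exact absurd h2 hx
  · rintro rfl
    exact ⟨Or.inl rfl, hh⟩

theorem pair_sdiff {h x : V} (hh : h ∈ c.Hb) (hx : x ∉ c.Hb) :
    ({h, x} : Finset V) \ c.Hb = {x} := by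
  ext y
  simp only [Finset.mem_sdiff, Finset.mem_insert, Finset.mem_singleton]
  constructor
  · rintro ⟨rfl | rfl, h2⟩
    · exact absurd hh h2
    · rfl
  · rintro rfl
    exact ⟨Or.inr rfl, hx⟩

theorem pair_sub {h x : V} : ({h, x} : Finset V) ⊆ c.Hb ↔ h ∈ c.Hb ∧ x ∈ c.Hb := by
  simp [Finset.insert_subset_iff]

theorem pair_disj {h x : V} : Disjoint ({h, x} : Finset V) c.Hb ↔ h ∉ c.Hb ∧ x ∉ c.Hb := by
  simp

theorem mem_cx {x : Finset V} : x ∈ Cx c.F ↔ x ≠ ∅ ∧ ∃ f ∈ c.F, x ⊆ f := by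
  simp only [Cx, Finset.mem_biUnion, Finset.mem_erase, Finset.mem_powerset]
  constructor
  · rintro ⟨f, h1, h2, h3⟩
    exact ⟨h2, f, h1, h3⟩
  · rintro ⟨h2, f, h1, h3⟩
    exact ⟨f, h1, h2, h3⟩

theorem face_of_cx {x : Finset V} (h : x ∈ Cx c.F) (h3 : x.card = 3) : x ∈ c.F := by
  obtain ⟨-, f, hf, hs⟩ := mem_cx.1 h
  rwa [Finset.eq_of_subset_of_card_le hs (by rw [h3, fcard hf])]

/-! ### The curve -/

theorem ind_spec {x : Finset V} (h : c.On x) : c.ind x ≤ c.m ∧ c.q (c.ind x) = x := by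
  unfold ind
  rw [dif_pos h]
  exact h.choose_spec

theorem ind_q {i : ℕ} (hi : i ≤ c.m) : c.ind (c.q i) = i :=
  have h := ind_spec (c := c) ⟨i, hi, rfl⟩
  c.cur.pa.inj _ h.1 _ hi h.2

theorem ind_inj {x y : Finset V} (hx : c.On x) (hy : c.On y) (h : c.ind x = c.ind y) : x = y := by
  rw [← (ind_spec hx).2, h, (ind_spec hy).2]

theorem on_vertex {x : V} (hx : x ∉ c.Hb) : c.On {x} := c.cur.vS x (Finset.mem_univ _) hx

theorem nbr {x : Finset V} (h : c.On x) : ∃ y, (Tk c.Hb).Adj x y ∧ y ∈ Cx c.F ∧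
    ∃ i < c.m, (c.q i = x ∧ c.q (i + 1) = y) ∨ (c.q i = y ∧ c.q (i + 1) = x) := by
  obtain ⟨i, hi, rfl⟩ := h
  rcases hi.lt_or_eq with hi | hi
  · exact ⟨c.q (i + 1), c.cur.pa.adj i hi, (c.cur.mem _ hi).1, i, hi, Or.inl ⟨rfl, rfl⟩⟩
  · have h1 := c.cur.one
    obtain ⟨j, rfl⟩ : ∃ j, i = j + 1 := ⟨i - 1, by omega⟩
    exact ⟨c.q j, (c.cur.pa.adj j (by omega)).symm, (c.cur.mem _ (by omega)).1, j, by omega,
      Or.inr ⟨rfl, rfl⟩⟩

theorem not_on_hub {h : V} (hh : h ∈ c.Hb) : ¬ c.On {h} := by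
  intro ho
  obtain ⟨y, hy, -⟩ := nbr ho
  rcases hy with ⟨hs, h1 | h1 | h1⟩ | ⟨hs, h1 | h1 | h1⟩
  · exact Finset.disjoint_left.1 h1.2.2 (hs (Finset.mem_singleton_self h)) hh
  · exact Finset.disjoint_left.1 h1.2.2 (Finset.mem_singleton_self h) hh
  all_goals simp at h1

theorem step_hub {E : Finset V} (ho : c.On E) (hE : c.Ed E) (hd : ¬ Disjoint E c.Hb) :
    ∃ f ∈ c.F, E ⊆ f ∧
      ∃ i < c.m, (c.q i = E ∧ c.q (i + 1) = f) ∨ (c.q i = f ∧ c.q (i + 1) = E) := by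
  obtain ⟨y, hy, hc, hi⟩ := nbr ho
  have h2 := hE.card
  rcases hy with ⟨hs, h1 | h1 | h1⟩ | ⟨hs, h1 | h1 | h1⟩
  · omega
  · omega
  · exact ⟨y, face_of_cx hc h1.2.1, hs, hi⟩
  · exact absurd h1.2.2 hd
  · omega
  · omega

theorem adj_plain {E y : Finset V} (hE : c.Ed E) (hd : Disjoint E c.Hb)
    (hy : (Tk c.Hb).Adj E y) : ∃ a ∈ E, y = {a} := by
  have h2 := hE.card
  rcases hy with ⟨hs, h1 | h1 | h1⟩ | ⟨hs, h1 | h1 | h1⟩
  · omega
  · omega
  · exact absurd hd h1.2.2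
  · obtain ⟨a, rfl⟩ := Finset.card_eq_one.1 h1.1
    exact ⟨a, hs (Finset.mem_singleton_self a), rfl⟩
  · omega
  · omega

theorem step_plain {E : Finset V} (ho : c.On E) (hE : c.Ed E) (hd : Disjoint E c.Hb) {x : V}
    (hx : x ∈ E) : c.ind {x} + 1 = c.ind E ∨ c.ind {x} = c.ind E + 1 := by
  obtain ⟨i, hi, rfl⟩ := ho
  have h2 := hE.card
  have hend : ¬ St c.Hb (c.q i) c.T0 := by
    rintro ⟨-, h1 | h1 | h1⟩
    · omega
    · omega
    · exact h1.2.2 hd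
  have h0 : i ≠ 0 := by
    rintro rfl
    exact hend c.cur.e0
  have hm : i ≠ c.m := by
    intro e
    exact hend (e ▸ c.cur.em)
  obtain ⟨j, rfl⟩ : ∃ j, i = j + 1 := ⟨i - 1, by omega⟩
  obtain ⟨a, ha, ea⟩ := adj_plain hE hd (c.cur.pa.adj j (by omega)).symm
  obtain ⟨b, hb, eb⟩ := adj_plain hE hd (c.cur.pa.adj (j + 1) (by omega))
  have hab : a ≠ b := by
    rintro rfl
    have := c.cur.pa.inj j (by omega) (j + 1 + 1) (by omega) (ea.trans eb.symm)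
    omega
  rw [ind_q hi]
  rw [hE.eq_pair ha hb hab] at hx
  rcases Finset.mem_insert.1 hx with rfl | hx
  · rw [← ea, ind_q (by omega)]
    exact Or.inl rfl
  · rw [Finset.mem_singleton.1 hx, ← eb, ind_q (by omega)]
    exact Or.inr rfl

/-! ### Tokens -/

theorem tok_on {E : Finset V} (h : c.On E) : c.tok E = E := if_pos h

theorem tok_hh {E : Finset V} (h : ¬ c.On E) (h' : E ⊆ c.Hb) : c.tok E = c.phi E := by
  unfold tok
  rw [if_neg h, if_pos h']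

theorem tok_hx {h x : V} (ho : ¬ c.On {h, x}) (hh : h ∈ c.Hb) (hx : x ∉ c.Hb) :
    c.tok {h, x} = {x} := by
  unfold tok
  rw [if_neg ho, if_neg fun h' => hx (pair_sub.1 h').2, pair_sdiff hh hx]

theorem R.cases {E o t : Finset V} (hE : c.Ed E) (h : c.R E o t) :
    (∃ x ∈ E, x ∉ c.Hb ∧ t = {x}) ∨ (t = E ∧ c.On E ∧ ¬ Disjoint E c.Hb) ∨
      (t ∈ c.F ∧ t ≠ c.T0 ∧ E ⊆ t ∧ E ⊆ c.Hb) := by
  rcases h with ⟨h, hh, hb, -, rfl⟩ | ⟨-, hT, h | h⟩
  · have hd : ¬ Disjoint E c.Hb := fun hd => Finset.disjoint_left.1 hd hh hb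
    by_cases ho : c.On E
    · exact Or.inr (Or.inl ⟨tok_on ho, ho, hd⟩)
    · by_cases hs : E ⊆ c.Hb
      · rw [tok_hh ho hs]
        have := phi_spec hE
        exact Or.inr (Or.inr ⟨this.1, this.2.1, this.2.2, hs⟩)
      · obtain ⟨w, -, rfl⟩ := hE.pin hh
        have hw : w ∉ c.Hb := fun hw => hs (pair_sub.2 ⟨hb, hw⟩)
        exact Or.inl ⟨w, by simp, hw, tok_hx ho hb hw⟩
  · exact Or.inl h
  · exact Or.inr (Or.inl ⟨h.1, (hT.resolve_left h.2).1, h.2⟩)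

theorem R.on {E o t : Finset V} (hE : c.Ed E) (h : c.R E o t) : c.On t := by
  rcases h.cases hE with ⟨x, -, hx, rfl⟩ | ⟨rfl, ho, -⟩ | ⟨h1, h2, h3, h4⟩
  · exact on_vertex hx
  · exact ho
  · obtain ⟨u, v, -, rfl⟩ := hE
    exact c.cur.vF t h1 h2 fun hd =>
      Finset.disjoint_left.1 hd (h3 (Finset.mem_insert_self _ _)) (pair_sub.1 h4).1

theorem Att.on {o t : Finset V} (h : c.Att o t) : c.On t :=
  let ⟨_, h1, h2⟩ := h
  h2.on h1

theorem R.same_tok {E E' o o' t : Finset V} (hE : c.Ed E) (hE' : c.Ed E') (hne : E ≠ E')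
    (h : c.R E o t) (h' : c.R E' o' t) : ∃ w, w ∉ c.Hb ∧ w ∈ E ∧ w ∈ E' ∧ t = {w} := by
  rcases h.cases hE with ⟨x, h1, h2, rfl⟩ | ⟨rfl, -⟩ | ⟨h1, -, h3, h4⟩ <;>
    rcases h'.cases hE' with ⟨x', k1, k2, k3⟩ | ⟨k1, -⟩ | ⟨k1, -, k3, k4⟩
  · obtain rfl := Finset.singleton_injective k3
    exact ⟨x, h2, h1, k1, rfl⟩
  · exact absurd k1.symm (hE'.ne_single _)
  · exact absurd k1 (single_not_face _)
  · exact absurd k3 (hE.ne_single _)
  · exact absurd k1 hne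
  · exact absurd k1 hE.not_face
  · exact absurd (k3 ▸ h1) (single_not_face _)
  · exact absurd (k1 ▸ h1) hE'.not_face
  · refine absurd ?_ (c.nd t h1)
    have h5 : E ⊂ E ∪ E' := by
      refine Finset.ssubset_iff_subset_ne.2 ⟨Finset.subset_union_left, fun e => hne ?_⟩
      have : E' ⊆ E := e ▸ Finset.subset_union_right
      exact (Finset.eq_of_subset_of_card_le this (by rw [hE.card, hE'.card])).symm
    have h6 := Finset.card_lt_card h5
    have h7 : E ∪ E' = t := Finset.eq_of_subset_of_card_le (Finset.union_subset h3 k3)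
      (by rw [fcard h1]; rw [hE.card] at h6; omega)
    exact h7 ▸ Finset.union_subset h4 k4

theorem R.same_ob {E E' o t t' : Finset V} (hE : c.Ed E) (hE' : c.Ed E') (hne : E ≠ E')
    (h : c.R E o t) (h' : c.R E' o t') :
    t ≠ t' ∧ ∃ w ∈ c.Hb, w ∈ E ∧ w ∈ E' ∧ o = {w} := by
  have key : ∃ w ∈ c.Hb, w ∈ E ∧ w ∈ E' ∧ o = {w} := by
    rcases h with ⟨x, h1, h2, rfl, -⟩ | ⟨rfl, -⟩ <;> rcases h' with ⟨x', k1, k2, k3, -⟩ | ⟨k1, -⟩
    · obtain rfl := Finset.singleton_injective k3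
      exact ⟨x, h2, h1, k1, rfl⟩
    · exact absurd k1.symm (hE'.ne_single _)
    · exact absurd k3 (hE.ne_single _)
    · exact absurd k1 hne
  refine ⟨?_, key⟩
  rintro rfl
  obtain ⟨w, w1, w2, w3, -⟩ := key
  obtain ⟨x, x1, x2, x3, -⟩ := R.same_tok hE hE' hne h h'
  have hwx : w ≠ x := fun e => x1 (e ▸ w1)
  exact hne ((hE.eq_pair w2 x2 hwx).trans (hE'.eq_pair w3 x3 hwx).symm)

theorem R.tok_mem {E o : Finset V} {w : V} (hE : c.Ed E) (h : c.R E o {w}) : w ∈ E := by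
  rcases h.cases hE with ⟨x, h1, -, h3⟩ | ⟨h1, -⟩ | ⟨h1, -⟩
  · rwa [Finset.singleton_injective h3]
  · exact absurd h1.symm (hE.ne_single _)
  · exact absurd h1 (single_not_face _)

theorem R.ob_mem {E t : Finset V} {w : V} (hE : c.Ed E) (h : c.R E {w} t) :
    w ∈ E ∧ w ∈ c.Hb ∧ t = c.tok E := by
  rcases h with ⟨x, h1, h2, h3, h4⟩ | ⟨h1, -⟩
  · obtain rfl := Finset.singleton_injective h3
    exact ⟨h1, h2, h4⟩
  · exact absurd h1.symm (hE.ne_single _)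

theorem Att.hub {h : V} {t : Finset V} (ha : c.Att {h} t) :
    ∃ w, c.G.Adj h w ∧ t = c.tok {h, w} := by
  obtain ⟨E, hE, hR⟩ := ha
  obtain ⟨h1, -, h3⟩ := hR.ob_mem hE
  obtain ⟨w, hw, rfl⟩ := hE.pin h1
  exact ⟨w, hw, h3⟩

theorem Att.tent {o t : Finset V} (ho : c.Ed o) (ha : c.Att o t) :
    (∃ x ∈ o, x ∉ c.Hb ∧ t = {x}) ∨ (t = o ∧ ¬ Disjoint o c.Hb) := by
  obtain ⟨E, -, ⟨x, -, -, h3, -⟩ | ⟨rfl, -, h⟩⟩ := ha
  · exact absurd h3 (ho.ne_single _)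
  · exact h

theorem tent_two {o : Finset V} (ho : c.Ed o) :
    ∃ s s', ∀ t, c.Att o t → t = s ∨ t = s' := by
  by_cases hd : Disjoint o c.Hb
  · obtain ⟨u, v, huv, rfl⟩ := id ho
    refine ⟨{u}, {v}, fun t ht => ?_⟩
    rcases ht.tent ho with ⟨x, h1, -, rfl⟩ | h
    · rcases Finset.mem_insert.1 h1 with rfl | h1
      · exact Or.inl rfl
      · exact Or.inr (by rw [Finset.mem_singleton.1 h1])
    · exact absurd hd h.2
  · obtain ⟨h, h1, h2⟩ := Finset.not_disjoint_iff.1 hd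
    obtain ⟨w, -, rfl⟩ := ho.pin h1
    refine ⟨{w}, {h, w}, fun t ht => ?_⟩
    rcases ht.tent ho with ⟨x, k1, k2, rfl⟩ | k
    · rcases Finset.mem_insert.1 k1 with rfl | k1
      · exact absurd h2 k2
      · exact Or.inl (by rw [Finset.mem_singleton.1 k1])
    · exact Or.inr k.1

theorem Ob.rigid {z : Finset V} (hz : c.Ob z) (ho : c.On z) (hd : ¬ Disjoint z c.Hb) :
    ∃ h x, h ∈ c.Hb ∧ x ∉ c.Hb ∧ c.G.Adj h x ∧ z = {h, x} := by
  rcases hz with ⟨h, hh, rfl⟩ | ⟨hE, hT⟩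
  · exact absurd ho (not_on_hub hh)
  · obtain ⟨h, h1, h2⟩ := Finset.not_disjoint_iff.1 hd
    obtain ⟨w, hw, rfl⟩ := hE.pin h1
    exact ⟨h, w, h2, fun h3 => (hT.resolve_left hd).2 (pair_sub.2 ⟨h2, h3⟩), hw, rfl⟩

theorem Ob.two {o : Finset V} (ho : c.Ob o) : ∃ t t', t ≠ t' ∧ c.Att o t ∧ c.Att o t' := by
  rcases ho with ⟨h, hh, rfl⟩ | ⟨hE, hT⟩
  · obtain ⟨a, b, hab, ha, hb⟩ := c.deg h
    have e1 : c.Ed {h, a} := ⟨h, a, ha, rfl⟩
    have e2 : c.Ed {h, b} := ⟨h, b, hb, rfl⟩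
    have r1 : c.R {h, a} {h} (c.tok {h, a}) := Or.inl ⟨h, by simp, hh, rfl, rfl⟩
    have r2 : c.R {h, b} {h} (c.tok {h, b}) := Or.inl ⟨h, by simp, hh, rfl, rfl⟩
    refine ⟨_, _, (R.same_ob e1 e2 (fun e => ?_) r1 r2).1, ⟨_, e1, r1⟩, ⟨_, e2, r2⟩⟩
    have : a ∈ ({h, b} : Finset V) := e ▸ (by simp)
    rcases Finset.mem_insert.1 this with h1 | h1
    · exact ha.ne h1.symm
    · exact hab (Finset.mem_singleton.1 h1)
  · by_cases hd : Disjoint o c.Hb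
    · obtain ⟨u, v, huv, rfl⟩ := id hE
      have := pair_disj.1 hd
      exact ⟨{u}, {v}, fun e => huv.ne (Finset.singleton_injective e),
        ⟨_, hE, Or.inr ⟨rfl, hT, Or.inl ⟨u, by simp, this.1, rfl⟩⟩⟩,
        ⟨_, hE, Or.inr ⟨rfl, hT, Or.inl ⟨v, by simp, this.2, rfl⟩⟩⟩⟩
    · obtain ⟨h, x, -, hx, -, rfl⟩ := Ob.rigid (Or.inr ⟨hE, hT⟩) (hT.resolve_left hd).1 hd
      exact ⟨_, {x}, hE.ne_single x, ⟨_, hE, Or.inr ⟨rfl, hT, Or.inr ⟨rfl, hd⟩⟩⟩,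
        ⟨_, hE, Or.inr ⟨rfl, hT, Or.inl ⟨x, by simp, hx, rfl⟩⟩⟩⟩

theorem Ob.card {o : Finset V} (ho : c.Ob o) : 1 ≤ o.card ∧ o.card ≤ 2 := by
  rcases ho with ⟨h, -, rfl⟩ | ⟨hE, -⟩
  · simp
  · rw [hE.card]
    omega

theorem ex_ob : ∃ o, c.Ob o := by
  obtain ⟨u, hu⟩ : c.T0.Nonempty := Finset.card_pos.1 (by rw [fcard c.root]; norm_num)
  obtain ⟨a, -, -, ha, -⟩ := c.deg u
  by_cases h1 : u ∈ c.Hb
  · exact ⟨_, Or.inl ⟨u, h1, rfl⟩⟩
  by_cases h2 : a ∈ c.Hb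
  · exact ⟨_, Or.inl ⟨a, h2, rfl⟩⟩
  exact ⟨{u, a}, Or.inr ⟨⟨u, a, ha, rfl⟩, Or.inl (pair_disj.2 ⟨h1, h2⟩)⟩⟩

/-! ### Sides -/

theorem flag_mem {u v : V} {f : Finset V} (hf : f ∈ c.F) (hu : u ∈ f) (hv : v ∈ f) (huv : u ≠ v) :
    ({{u}, {u, v}, f} : Finset (Finset V)) ∈ Fl c.F :=
  Finset.mem_biUnion.2 ⟨f, hf, Finset.mem_image.2 ⟨(u, v), Finset.mem_offDiag.2 ⟨hu, hv, huv⟩, rfl⟩⟩

theorem off_cycle {x : Finset V} (ho : ¬ c.On x) (h2 : x.card ≤ 2) :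
    x ∉ insert c.T0 (c.q '' Iic c.m) := by
  rintro (rfl | ⟨i, hi, rfl⟩)
  · have := fcard c.root
    omega
  · exact ho ⟨i, hi, rfl⟩

theorem sdt_eq {x : Finset V} (ho : ¬ c.On x) (h2 : x.card ≤ 2) {g : Finset (Finset V)}
    (hg : g ∈ Fl c.F) (hx : x ∈ g) : c.σ g = c.sdt x := by
  have : ∃ g ∈ Fl c.F, x ∈ g := ⟨g, hg, hx⟩
  unfold sdt
  rw [dif_pos this]
  exact c.sid.off x (off_cycle ho h2) g hg _ this.choose_spec.1 hx this.choose_spec.2

theorem flag_adj {u v : V} {f : Finset V} (hf : f ∈ c.F) (hu : u ∈ f) (hv : v ∈ f) (huv : u ≠ v)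
    {β : Bool} (hβ : c.σ {{u}, {u, v}, f} = β) :
    (c.GS β).Adj {u} {u, v} ∧ (c.GS β).Adj {u} f := by
  have h1 : ({u} : Finset V) ∈ Cx c.F :=
    mem_cx.2 ⟨Finset.singleton_ne_empty u, f, hf, Finset.singleton_subset_iff.2 hu⟩
  have h2 : ({u, v} : Finset V) ∈ Cx c.F := mem_cx.2 ⟨Finset.insert_ne_empty _ _, f, hf,
    Finset.insert_subset hu (Finset.singleton_subset_iff.2 hv)⟩
  have h3 : f ∈ Cx c.F := mem_cx.2 ⟨Finset.ne_empty_of_mem hu, f, hf, Finset.Subset.refl _⟩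
  have hg := flag_mem hf hu hv huv
  refine ⟨⟨⟨h1, h2, Or.inl ?_⟩, _, hg, hβ, by simp, by simp⟩,
    ⟨⟨h1, h3, Or.inl ?_⟩, _, hg, hβ, by simp, by simp⟩⟩
  · refine Finset.ssubset_iff_subset_ne.2 ⟨by simp, fun e => ?_⟩
    have := congrArg Finset.card e
    rw [Finset.card_pair huv] at this
    simp at this
  · refine Finset.ssubset_iff_subset_ne.2 ⟨Finset.singleton_subset_iff.2 hu, fun e => ?_⟩
    exact single_not_face u (e ▸ hf)

theorem hub_flag {h w : V} {f : Finset V} (hh : h ∈ c.Hb) (hf : f ∈ c.F) (hu : h ∈ f)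
    (hv : w ∈ f) (huv : h ≠ w) : c.σ {{h}, {h, w}, f} = c.sdt {h} :=
  sdt_eq (not_on_hub hh) (by simp) (flag_mem hf hu hv huv) (by simp)

theorem hub_adj {h w : V} (hh : h ∈ c.Hb) (ha : c.G.Adj h w) :
    (c.GS (c.sdt {h})).Adj {h} {h, w} := by
  obtain ⟨f, hf, -, h1, h2⟩ := ex_face ha
  exact (flag_adj hf h1 h2 ha.ne (hub_flag hh hf h1 h2 ha.ne)).1

theorem edge_adj {E : Finset V} (hE : c.Ed E) (ho : ¬ c.On E) {x : V} (hx : x ∈ E) :
    (c.GS (c.sdt E)).Adj E {x} := by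
  obtain ⟨w, ha, rfl⟩ := hE.pin hx
  obtain ⟨f, hf, -, h1, h2⟩ := ex_face ha
  exact (flag_adj hf h1 h2 ha.ne
    (sdt_eq ho hE.card.le (flag_mem hf h1 h2 ha.ne) (by simp))).1.symm

theorem sdt_edge {h w : V} (hh : h ∈ c.Hb) (ha : c.G.Adj h w) (ho : ¬ c.On {h, w}) :
    c.sdt {h, w} = c.sdt {h} := by
  obtain ⟨f, hf, -, h1, h2⟩ := ex_face ha
  rw [← hub_flag hh hf h1 h2 ha.ne]
  exact (sdt_eq ho (Finset.card_pair ha.ne).le (flag_mem hf h1 h2 ha.ne) (by simp)).symm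

theorem rigid_adj {h x : V} (hh : h ∈ c.Hb) (ha : c.G.Adj h x) (ho : c.On {h, x}) :
    (c.GS (!(c.sdt {h}))).Adj {x} {h, x} := by
  have hE : c.Ed {h, x} := ⟨h, x, ha, rfl⟩
  obtain ⟨f, hf, hs, i, hi, hq⟩ := step_hub ho hE fun hd => (pair_disj.1 hd).1 hh
  have h1 : h ∈ f := hs (by simp)
  have h2 : x ∈ f := hs (by simp)
  have g1 := flag_mem hf h1 h2 ha.ne
  have g2 := flag_mem hf h2 h1 ha.ne'
  have hne : ({{h}, {h, x}, f} : Finset (Finset V)) ≠ {{x}, {x, h}, f} := by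
    intro e
    have : ({h} : Finset V) ∈ ({{x}, {x, h}, f} : Finset (Finset V)) := e ▸ (by simp)
    simp only [Finset.mem_insert, Finset.mem_singleton] at this
    rcases this with k | k | k
    · exact ha.ne (Finset.singleton_injective k)
    · exact hE.ne_single h ((Finset.pair_comm _ _).trans k.symm)
    · exact single_not_face h (k ▸ hf)
  have e1 : ({h, x} : Finset V) ∈ ({{x}, {x, h}, f} : Finset (Finset V)) := by
    rw [Finset.pair_comm h x]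
    simp
  have hσ : c.σ {{h}, {h, x}, f} ≠ c.σ {{x}, {x, h}, f} := by
    rcases hq with ⟨k1, k2⟩ | ⟨k1, k2⟩
    · exact c.sid.on i hi _ g1 _ g2 hne (by rw [k1]; simp) (by rw [k2]; simp) (by rwa [k1])
        (by rw [k2]; simp)
    · exact c.sid.on i hi _ g1 _ g2 hne (by rw [k1]; simp) (by rw [k2]; simp) (by rw [k1]; simp)
        (by rwa [k2])
  rw [hub_flag hh hf h1 h2 ha.ne] at hσ
  have := (flag_adj hf h2 h1 ha.ne' (β := !(c.sdt {h})) (by
    revert hσ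
    cases c.σ {{x}, {x, h}, f} <;> cases c.sdt {h} <;> simp)).1
  rwa [Finset.pair_comm x h] at this

theorem side_off {o : Finset V} (ho : ¬ c.On o) : c.side o = c.sdt o := if_neg ho

theorem side_on {o : Finset V} (ho : c.On o) : c.side o = !(c.sdt (o ∩ c.Hb)) := if_pos ho

theorem K_card {o y : Finset V} (ho : c.Ob o) (hy : y ∈ c.K o) : y.card ≤ 2 := by
  rcases hy.2 with rfl | h
  · exact ho.card.2
  · exact h.1.card.le

theorem K_cycle {o : Finset V} (ho : c.Ob o) :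
    Disjoint (c.K o) (insert c.T0 (c.q '' Iic c.m)) :=
  disjoint_left.2 fun _ hy => off_cycle hy.1 (K_card ho hy)

theorem K_disj {o o' : Finset V} (ho : c.Ob o) (ho' : c.Ob o') (hne : o ≠ o') :
    Disjoint (c.K o) (c.K o') := by
  have key : ∀ a b : Finset V, c.Ob a → c.Ob b → ¬ c.On a → c.Ed a → a ∩ c.Hb ≠ b := by
    intro a b ha hb h1 h2 e
    rcases ha with ⟨h, -, rfl⟩ | ⟨-, hT | hT⟩
    · exact h2.ne_single h rfl
    · have := hb.card.1
      rw [← e, Finset.disjoint_iff_inter_eq_empty.1 hT] at this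
      simp at this
    · exact h1 hT.1
  rw [disjoint_left]
  rintro y ⟨h0, rfl | h1⟩ ⟨-, h2 | h2⟩
  · exact hne h2
  · exact key _ _ ho ho' h0 h2.1 h2.2
  · exact key _ _ ho' ho (h2 ▸ h0) (h2 ▸ h1.1) (h2 ▸ h1.2)
  · exact hne (h1.2.symm.trans h2.2)

theorem K_cn {o : Finset V} (ho : c.Ob o) (hoff : ¬ c.On o) : Cn (c.GS (c.side o)) (c.K o) := by
  rw [side_off hoff]
  refine cn_of o ?_
  rintro y ⟨h0, rfl | ⟨h1, h2⟩⟩
  · exact Conn.refl _ _
  · rcases ho with ⟨h, hh, rfl⟩ | ⟨hE, hT⟩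
    · have : h ∈ y := (Finset.mem_inter.1 (h2 ▸ Finset.mem_singleton_self h)).1
      obtain ⟨w, hw, rfl⟩ := h1.pin this
      exact Conn.adj (hub_adj hh hw).symm ⟨h0, Or.inr ⟨h1, h2⟩⟩ ⟨hoff, Or.inl rfl⟩
    · obtain ⟨u, v, -, rfl⟩ := hE
      have h3 : ({u, v} : Finset V) ⊆ c.Hb := h2 ▸ Finset.inter_subset_right
      rcases hT with hT | hT
      · exact absurd (pair_sub.1 h3).1 (pair_disj.1 hT).1
      · exact absurd h3 hT.2

theorem K_sa {o t : Finset V} (ho : c.Ob o) (hoff : ¬ c.On o) (ht : c.Att o t) :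
    SA (c.GS (c.side o)) (c.K o) {t} := by
  rw [side_off hoff]
  rcases ho with ⟨h, hh, rfl⟩ | ⟨hE, hT⟩
  · obtain ⟨w, hw, rfl⟩ := ht.hub
    have hE : c.Ed {h, w} := ⟨h, w, hw, rfl⟩
    by_cases h1 : c.On {h, w}
    · rw [tok_on h1]
      exact ⟨_, ⟨hoff, Or.inl rfl⟩, _, rfl, hub_adj hh hw⟩
    by_cases h2 : w ∈ c.Hb
    · rw [tok_hh h1 (pair_sub.2 ⟨hh, h2⟩)]
      obtain ⟨k1, -, k3⟩ := phi_spec hE
      have a1 : h ∈ c.phi {h, w} := k3 (by simp)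
      have a2 : w ∈ c.phi {h, w} := k3 (by simp)
      exact ⟨_, ⟨hoff, Or.inl rfl⟩, _, rfl,
        (flag_adj k1 a1 a2 hw.ne (hub_flag hh k1 a1 a2 hw.ne)).2⟩
    · rw [tok_hx h1 hh h2, ← sdt_edge hh hw h1]
      exact ⟨{h, w}, ⟨h1, Or.inr ⟨hE, pair_inter hh h2⟩⟩, _, rfl, edge_adj hE h1 (by simp)⟩
  · rcases ht.tent hE with ⟨x, k1, -, rfl⟩ | ⟨-, k⟩
    · exact ⟨o, ⟨hoff, Or.inl rfl⟩, _, rfl, edge_adj hE hoff k1⟩
    · exact absurd (hT.resolve_left k).1 hoff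

theorem link {o t t' : Finset V} (ho : c.Ob o) (hp : ¬ (c.On o ∧ Disjoint o c.Hb))
    (ht : c.Att o t) (ht' : c.Att o t') : Conn (c.GS (c.side o)) (c.K o ∪ {t, t'}) t t' := by
  have m1 : t ∈ c.K o ∪ {t, t'} := Or.inr (Or.inl rfl)
  have m2 : t' ∈ c.K o ∪ {t, t'} := Or.inr (Or.inr rfl)
  by_cases hon : c.On o
  · have hd : ¬ Disjoint o c.Hb := fun hd => hp ⟨hon, hd⟩
    obtain ⟨h, x, hh, hx, ha, rfl⟩ := ho.rigid hon hd
    have hE : c.Ed {h, x} := ⟨h, x, ha, rfl⟩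
    have key : ∀ s, c.Att {h, x} s → s = {x} ∨ s = {h, x} := by
      intro s hs
      rcases hs.tent hE with ⟨y, k1, k2, rfl⟩ | k
      · rcases Finset.mem_insert.1 k1 with rfl | k1
        · exact absurd hh k2
        · exact Or.inl (by rw [Finset.mem_singleton.1 k1])
      · exact Or.inr k.1
    have hadj := rigid_adj hh ha hon
    rw [side_on hon, pair_inter hh hx]
    rcases key t ht with rfl | rfl <;> rcases key t' ht' with rfl | rfl
    · exact Conn.refl _ _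
    · exact Conn.adj hadj m1 m2
    · exact Conn.adj hadj.symm m1 m2
    · exact Conn.refl _ _
  · obtain ⟨y, hy, _, rfl, a1⟩ := K_sa ho hon ht
    obtain ⟨y', hy', _, rfl, a2⟩ := K_sa ho hon ht'
    exact ((Conn.adj a1.symm m1 (Or.inl hy)).trans
      ((K_cn ho hon y hy y' hy').mono subset_union_left)).trans (Conn.adj a2 (Or.inl hy') m2)

/-- Nothing is attached between the two attachments of a plain edge on the curve. -/
theorem plain_gap {o o' t t' s : Finset V} (ho : c.Ob o) (hon : c.On o) (hd : Disjoint o c.Hb)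
    (ht : c.Att o t) (ht' : c.Att o t') (hs : c.Att o' s) (h1 : c.ind t < c.ind s)
    (h2 : c.ind s < c.ind t') : False := by
  have hE : c.Ed o := by
    rcases ho with ⟨h, hh, rfl⟩ | h
    · exact absurd hon (not_on_hub hh)
    · exact h.1
  have key : ∀ u, c.Att o u → c.ind u + 1 = c.ind o ∨ c.ind u = c.ind o + 1 := by
    intro u hu
    rcases hu.tent hE with ⟨x, k1, -, rfl⟩ | k
    · exact step_plain hon hE hd k1
    · exact absurd hd k.2
  have k1 := key t ht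
  have k2 := key t' ht'
  obtain rfl : s = o := ind_inj hs.on hon (by omega)
  obtain ⟨E, hE', hR⟩ := hs
  rcases hR.cases hE' with ⟨x, -, -, h3⟩ | ⟨rfl, -, h3⟩ | ⟨h3, -⟩
  · exact hE.ne_single x h3
  · exact h3 hd
  · exact hE.not_face h3

theorem nc_tok {o o' t1 t2 t3 t4 : Finset V} (ho : c.Ob o) (ho' : c.Ob o') (hne : o ≠ o')
    (hs : c.side o = c.side o') (a1 : c.Att o t1) (a3 : c.Att o t3) (a2 : c.Att o' t2)
    (a4 : c.Att o' t4) (h1 : c.ind t1 < c.ind t2) (h2 : c.ind t2 < c.ind t3)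
    (h3 : c.ind t3 < c.ind t4) : False := by
  by_cases hp : c.On o ∧ Disjoint o c.Hb
  · exact plain_gap ho hp.1 hp.2 a1 a3 a2 h1 h2
  by_cases hp' : c.On o' ∧ Disjoint o' c.Hb
  · exact plain_gap ho' hp'.1 hp'.2 a2 a4 a3 h2 h3
  refine c.sid.nc (c.side o) (c.K o) (c.K o') _ _ _ _ (K_disj ho ho' hne) (K_cycle ho)
    (K_cycle ho') h1 h2 h3 (ind_spec a4.on).1 ?_ ?_
  · rw [(ind_spec a1.on).2, (ind_spec a3.on).2]
    exact link ho hp a1 a3
  · rw [(ind_spec a2.on).2, (ind_spec a4.on).2, hs]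
    exact link ho' hp' a2 a4

theorem n3_tok {o o' t1 t2 t3 : Finset V} (ho : c.Ob o) (ho' : c.Ob o') (hne : o ≠ o')
    (hs : c.side o = c.side o') (a1 : c.Att o t1) (a2 : c.Att o t2) (a3 : c.Att o t3)
    (b1 : c.Att o' t1) (b2 : c.Att o' t2) (b3 : c.Att o' t3) (h1 : c.ind t1 < c.ind t2)
    (h2 : c.ind t2 < c.ind t3) : False := by
  have key : ∀ z, c.Ob z → c.Att z t1 → c.Att z t2 → c.Att z t3 → ¬ c.On z := by
    intro z hz k1 k2 k3
    rcases hz with ⟨h, hh, rfl⟩ | ⟨hE, -⟩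
    · exact not_on_hub hh
    · obtain ⟨s, s', hs⟩ := tent_two hE
      rcases hs _ k1 with e1 | e1 <;> rcases hs _ k2 with e2 | e2 <;>
        rcases hs _ k3 with e3 | e3 <;> subst_vars <;> omega
  have f1 := key o ho a1 a2 a3
  have f2 := key o' ho' b1 b2 b3
  refine c.sid.n3 (c.side o) (c.K o) (c.K o') _ _ _ (K_disj ho ho' hne) (K_cycle ho)
    (K_cycle ho') (K_cn ho f1) (hs ▸ K_cn ho' f2) h1 h2 (ind_spec a3.on).1 ?_
  rintro i (rfl | rfl | rfl)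
  · rw [(ind_spec a1.on).2]
    exact ⟨K_sa ho f1 a1, hs ▸ K_sa ho' f2 b1⟩
  · rw [(ind_spec a2.on).2]
    exact ⟨K_sa ho f1 a2, hs ▸ K_sa ho' f2 b2⟩
  · rw [(ind_spec a3.on).2]
    exact ⟨K_sa ho f1 a3, hs ▸ K_sa ho' f2 b3⟩

/-! ### The layout -/

variable (c)

/-- The type of the objects. -/
abbrev Obj : Type := {o : Finset V // c.Ob o}

open Classical in
/-- The points of the line attached to an object. -/
noncomputable def AtO (o : c.Obj) : Finset ℕ :=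
  (Finset.univ.filter (c.Att o.1)).image fun t => c.ind t + 1

open Classical in
/-- The object of a hub. -/
noncomputable def hub (v : V) : c.Obj :=
  if h : v ∈ c.Hb then ⟨{v}, Or.inl ⟨v, h, rfl⟩⟩ else ⟨_, (ex_ob (c := c)).choose_spec⟩

theorem ob_inter (z : c.Obj) (h : c.On z.1 ∧ ¬ Disjoint z.1 c.Hb) : c.Ob (z.1 ∩ c.Hb) := by
  obtain ⟨u, x, h1, h2, -, h3⟩ := z.2.rigid h.1 h.2
  exact Or.inl ⟨u, h1, by rw [h3, pair_inter h1 h2]⟩

open Classical in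
/-- The collinearity conditions. -/
noncomputable def tie (z : c.Obj) : Option (c.Obj × ℕ) :=
  if h : c.On z.1 ∧ ¬ Disjoint z.1 c.Hb then some (⟨_, c.ob_inter z h⟩, c.ind z.1 + 1) else none

/-- The segments of an edge. -/
def Sg (e : Sym2 V) : Set (c.Obj × ℕ) :=
  {x | ∃ t, c.R e.toFinset x.1.1 t ∧ x.2 = c.ind t + 1}

variable {c}

theorem mem_AtO {o : c.Obj} {a : ℕ} : a ∈ c.AtO o ↔ ∃ t, c.Att o.1 t ∧ c.ind t + 1 = a := by
  simp [AtO]

theorem hub_val {v : V} (h : v ∈ c.Hb) : (c.hub v).1 = {v} := by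
  unfold hub
  rw [dif_pos h]

theorem eq_hub {o : c.Obj} {v : V} (h : v ∈ c.Hb) : o = c.hub v ↔ o.1 = {v} := by
  rw [← hub_val h]
  exact Subtype.ext_iff

theorem ed_of {e : Sym2 V} (he : e ∈ c.G.edgeSet) : c.Ed e.toFinset := by
  induction e using Sym2.ind with
  | h u v => exact ⟨u, v, he, Sym2.toFinset_mk_eq⟩

omit [Fintype V] in
theorem toF_ne {e e' : Sym2 V} (h : e ≠ e') : e.toFinset ≠ e'.toFinset := fun k =>
  h (Sym2.ext fun x => by rw [← Sym2.mem_toFinset, k, Sym2.mem_toFinset])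

theorem wk : Wk (c.m + 2) (fun o : c.Obj => c.side o.1) c.AtO c.tie where
  rng o a ha := by
    obtain ⟨t, ht, rfl⟩ := mem_AtO.1 ha
    have := (ind_spec ht.on).1
    omega
  two o := by
    obtain ⟨t, t', hne, h1, h2⟩ := o.2.two
    exact Finset.one_lt_card.2 ⟨_, mem_AtO.2 ⟨t, h1, rfl⟩, _, mem_AtO.2 ⟨t', h2, rfl⟩,
      fun e => hne (ind_inj h1.on h2.on (by omega))⟩
  nc o o' hne hs a ha b hb d hd e he h1 h2 h3 := by
    obtain ⟨t1, a1, rfl⟩ := mem_AtO.1 ha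
    obtain ⟨t3, a3, rfl⟩ := mem_AtO.1 hb
    obtain ⟨t2, a2, rfl⟩ := mem_AtO.1 hd
    obtain ⟨t4, a4, rfl⟩ := mem_AtO.1 he
    exact nc_tok o.2 o'.2 (fun e => hne (Subtype.ext e)) hs a1 a3 a2 a4 (by omega) (by omega)
      (by omega)
  n3 o o' hne hs := by
    by_contra hc
    have key : ∀ x ∈ c.AtO o ∩ c.AtO o', ∀ y ∈ c.AtO o ∩ c.AtO o', ∀ z ∈ c.AtO o ∩ c.AtO o',
        x < y → y < z → False := by
      intro x hx y hy z hz h1 h2
      rw [Finset.mem_inter, mem_AtO, mem_AtO] at hx hy hz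
      obtain ⟨⟨t1, a1, rfl⟩, s1, b1, e1⟩ := hx
      obtain ⟨⟨t2, a2, rfl⟩, s2, b2, e2⟩ := hy
      obtain ⟨⟨t3, a3, rfl⟩, s3, b3, e3⟩ := hz
      obtain rfl := ind_inj b1.on a1.on (by omega)
      obtain rfl := ind_inj b2.on a2.on (by omega)
      obtain rfl := ind_inj b3.on a3.on (by omega)
      exact n3_tok o.2 o'.2 (fun e => hne (Subtype.ext e)) hs a1 a2 a3 b1 b2 b3 (by omega)
        (by omega)
    obtain ⟨x, hx, y, hy, z, hz, h1, h2, h3⟩ := Finset.two_lt_card.1 (not_le.1 hc)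
    rcases lt_or_gt_of_ne h1 with k1 | k1 <;> rcases lt_or_gt_of_ne h2 with k2 | k2 <;>
      rcases lt_or_gt_of_ne h3 with k3 | k3
    · exact key x hx y hy z hz k1 k3
    · exact key x hx z hz y hy k2 k3
    · omega
    · exact key z hz x hx y hy k2 k1
    · exact key y hy x hx z hz k1 k2
    · omega
    · exact key y hy z hz x hx k3 k2
    · exact key z hz y hy x hx k3 k1
  tie z h p ht := by
    unfold tie at ht
    split_ifs at ht with hz
    obtain ⟨u, x, h1, h2, ha, h3⟩ := z.2.rigid hz.1 hz.2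
    have hE : c.Ed z.1 := ⟨u, x, ha, h3⟩
    have hT : c.Tent z.1 := Or.inr ⟨hz.1, fun k => h2 (pair_sub.1 (h3 ▸ k)).2⟩
    obtain ⟨e1, e2⟩ := Prod.mk.inj (Option.some.inj ht)
    have e3 : h.1 = {u} := by
      rw [← e1]
      show z.1 ∩ c.Hb = {u}
      rw [h3, pair_inter h1 h2]
    have r1 : c.R z.1 z.1 z.1 := Or.inr ⟨rfl, hT, Or.inr ⟨rfl, hz.2⟩⟩
    have r2 : c.R z.1 h.1 z.1 := Or.inl ⟨u, by rw [h3]; simp, h1, e3, (tok_on hz.1).symm⟩
    refine ⟨?_, mem_AtO.2 ⟨_, ⟨_, hE, r1⟩, e2⟩, mem_AtO.2 ⟨_, ⟨_, hE, r2⟩, e2⟩, ?_, ?_⟩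
    · rw [e3, side_off (not_on_hub h1), side_on hz.1, h3, pair_inter h1 h2]
      cases c.sdt {u} <;> simp
    · unfold tie
      rw [dif_neg fun k => not_on_hub h1 (e3 ▸ k.1)]
    · intro o ho
      obtain ⟨t, ⟨E, hE', hR⟩, e4⟩ := mem_AtO.1 ho
      obtain rfl : t = z.1 := ind_inj (hR.on hE') hz.1 (by omega)
      have e5 : E = z.1 := by
        by_contra hne
        obtain ⟨w, -, -, -, k⟩ := R.same_tok hE' hE hne hR r1
        exact hE.ne_single w k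
      rw [e5] at hR
      rcases hR with ⟨y, k1, k2, k3, -⟩ | ⟨k1, -⟩
      · right
        rw [h3] at k1
        rcases Finset.mem_insert.1 k1 with rfl | k1
        · exact Subtype.ext (k3.trans e3.symm)
        · exact absurd (Finset.mem_singleton.1 k1 ▸ k2) h2
      · exact Or.inl (Subtype.ext k1)

theorem mem_Sg {u v : V} {o : c.Obj} {p : ℕ} :
    (o, p) ∈ c.Sg s(u, v) ↔ ∃ t, c.R {u, v} o.1 t ∧ p = c.ind t + 1 := by
  unfold Sg
  rw [Sym2.toFinset_mk_eq]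
  rfl

theorem hs {h x : V} (ha : c.G.Adj h x) (hh : h ∈ c.Hb) (hx : x ∉ c.Hb) :
    HS (fun v => c.ind {v} + 1) c.tie c.hub c.Sg h x := by
  have hE : c.Ed {h, x} := ⟨h, x, ha, rfl⟩
  have hd : ¬ Disjoint ({h, x} : Finset V) c.Hb := fun k => (pair_disj.1 k).1 hh
  have k1 : ∀ y ∈ ({h, x} : Finset V), y ∈ c.Hb → y = h := by
    intro y hy hb
    rcases Finset.mem_insert.1 hy with rfl | hy
    · rfl
    · exact absurd (Finset.mem_singleton.1 hy ▸ hb) hx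
  have k2 : ∀ y ∈ ({h, x} : Finset V), y ∉ c.Hb → y = x := by
    intro y hy hb
    rcases Finset.mem_insert.1 hy with rfl | hy
    · exact absurd hh hb
    · exact Finset.mem_singleton.1 hy
  by_cases ho : c.On {h, x}
  · have hT : c.Tent {h, x} := Or.inr ⟨ho, fun k => hx (pair_sub.1 k).2⟩
    refine Or.inr ⟨⟨{h, x}, Or.inr ⟨hE, hT⟩⟩, c.ind {h, x} + 1, ?_, ?_, ?_⟩
    · unfold tie
      rw [dif_pos ⟨ho, hd⟩]
      congr 2
      exact (eq_hub hh).2 (pair_inter hh hx)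
    · exact fun e => hE.ne_single x (ind_inj ho (on_vertex hx) (Nat.succ_injective e))
    · ext ⟨o, p⟩
      rw [mem_Sg]
      simp only [mem_insert_iff, mem_singleton_iff, Prod.mk.injEq]
      constructor
      · rintro ⟨t, ⟨y, y1, y2, y3, rfl⟩ | ⟨y1, -, ⟨y, y2, y3, rfl⟩ | ⟨rfl, -⟩⟩, rfl⟩
        · obtain rfl := k1 y y1 y2
          exact Or.inl ⟨(eq_hub hh).2 y3, by rw [tok_on ho]⟩
        · obtain rfl := k2 y y2 y3
          exact Or.inr (Or.inr ⟨Subtype.ext y1, rfl⟩)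
        · exact Or.inr (Or.inl ⟨Subtype.ext y1, rfl⟩)
      · rintro (⟨rfl, rfl⟩ | ⟨rfl, rfl⟩ | ⟨rfl, rfl⟩)
        · exact ⟨_, Or.inl ⟨h, by simp, hh, hub_val hh, (tok_on ho).symm⟩, rfl⟩
        · exact ⟨_, Or.inr ⟨rfl, hT, Or.inr ⟨rfl, hd⟩⟩, rfl⟩
        · exact ⟨_, Or.inr ⟨rfl, hT, Or.inl ⟨x, by simp, hx, rfl⟩⟩, rfl⟩
  · left
    ext ⟨o, p⟩
    rw [mem_Sg]
    simp only [mem_singleton_iff, Prod.mk.injEq]
    constructor
    · rintro ⟨t, ⟨y, y1, y2, y3, rfl⟩ | ⟨-, hT, -⟩, rfl⟩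
      · obtain rfl := k1 y y1 y2
        exact ⟨(eq_hub hh).2 y3, by rw [tok_hx ho hh hx]⟩
      · exact absurd (hT.resolve_left hd).1 ho
    · rintro ⟨rfl, rfl⟩
      exact ⟨_, Or.inl ⟨h, by simp, hh, hub_val hh, (tok_hx ho hh hx).symm⟩, rfl⟩

theorem lay : Lay c.G c.Hb (c.m + 2) (fun v => c.ind {v} + 1) (fun o : c.Obj => c.side o.1) c.AtO
    c.tie c.hub c.Sg where
  wk := wk
  ixr v hv := by
    have := (ind_spec (on_vertex hv)).1
    omega
  ixi v hv w hw e := Finset.singleton_injective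
    (ind_inj (on_vertex hv) (on_vertex hw) (Nat.succ_injective e))
  hubi v hv w hw e := Finset.singleton_injective ((hub_val hv).symm.trans ((eq_hub hw).1 e))
  mem e he x hx := by
    obtain ⟨t, h1, h2⟩ := hx
    exact mem_AtO.2 ⟨t, ⟨_, ed_of he, h1⟩, h2.symm⟩
  shape u v ha := by
    have hE : c.Ed {u, v} := ⟨u, v, ha, rfl⟩
    by_cases hu : u ∈ c.Hb <;> by_cases hv : v ∈ c.Hb
    · refine Or.inr (Or.inr (Or.inr ⟨hu, hv, c.ind (c.tok {u, v}) + 1, ?_⟩))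
      ext ⟨o, p⟩
      rw [mem_Sg]
      simp only [mem_insert_iff, mem_singleton_iff, Prod.mk.injEq]
      constructor
      · rintro ⟨t, ⟨y, y1, y2, y3, rfl⟩ | ⟨-, hT | hT, -⟩, rfl⟩
        · rcases Finset.mem_insert.1 y1 with rfl | y1
          · exact Or.inl ⟨(eq_hub hu).2 y3, rfl⟩
          · obtain rfl := Finset.mem_singleton.1 y1
            exact Or.inr ⟨(eq_hub hv).2 y3, rfl⟩
        · exact absurd hu (pair_disj.1 hT).1
        · exact absurd (pair_sub.2 ⟨hu, hv⟩) hT.2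
      · rintro (⟨rfl, rfl⟩ | ⟨rfl, rfl⟩)
        · exact ⟨_, Or.inl ⟨u, by simp, hu, hub_val hu, rfl⟩, rfl⟩
        · exact ⟨_, Or.inl ⟨v, by simp, hv, hub_val hv, rfl⟩, rfl⟩
    · exact Or.inr (Or.inl ⟨hu, hv, hs ha hu hv⟩)
    · exact Or.inr (Or.inr (Or.inl ⟨hv, hu, hs ha.symm hv hu⟩))
    · have hd : Disjoint ({u, v} : Finset V) c.Hb := pair_disj.2 ⟨hu, hv⟩
      refine Or.inl ⟨hu, hv, ⟨{u, v}, Or.inr ⟨hE, Or.inl hd⟩⟩, ?_⟩
      ext ⟨o, p⟩
      rw [mem_Sg]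
      simp only [mem_insert_iff, mem_singleton_iff, Prod.mk.injEq]
      constructor
      · rintro ⟨t, ⟨y, y1, y2, -⟩ | ⟨y1, -, ⟨y, y2, -, rfl⟩ | ⟨-, k⟩⟩, rfl⟩
        · exact absurd y2 (Finset.disjoint_left.1 hd y1)
        · rcases Finset.mem_insert.1 y2 with rfl | y2
          · exact Or.inl ⟨Subtype.ext y1, rfl⟩
          · obtain rfl := Finset.mem_singleton.1 y2
            exact Or.inr ⟨Subtype.ext y1, rfl⟩
        · exact absurd hd k
      · rintro (⟨rfl, rfl⟩ | ⟨rfl, rfl⟩)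
        · exact ⟨_, Or.inr ⟨rfl, Or.inl hd, Or.inl ⟨u, by simp, hu, rfl⟩⟩, rfl⟩
        · exact ⟨_, Or.inr ⟨rfl, Or.inl hd, Or.inl ⟨v, by simp, hv, rfl⟩⟩, rfl⟩
  ex e he e' he' hne x hx y hy := by
    obtain ⟨t, h1, h2⟩ := hx
    obtain ⟨t', k1, k2⟩ := hy
    have hE := ed_of he
    have hE' := ed_of he'
    constructor
    · intro exy
      rw [← exy] at k1
      obtain ⟨n1, w, w1, w2, w3, w4⟩ := R.same_ob hE hE' (toF_ne hne) h1 k1
      exact ⟨fun k => n1 (ind_inj (h1.on hE) (k1.on hE') (by omega)), w, w1,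
        Sym2.mem_toFinset.1 w2, Sym2.mem_toFinset.1 w3, (eq_hub w1).2 w4⟩
    · intro exy
      obtain rfl : t = t' := ind_inj (h1.on hE) (k1.on hE') (by omega)
      obtain ⟨w, w1, w2, w3, rfl⟩ := R.same_tok hE hE' (toF_ne hne) h1 k1
      exact ⟨w, w1, Sym2.mem_toFinset.1 w2, Sym2.mem_toFinset.1 w3, h2⟩
  vx e he x hx := by
    obtain ⟨t, h1, h2⟩ := hx
    have hE := ed_of he
    constructor
    · intro w hw k
      obtain rfl : t = {w} := ind_inj (h1.on hE) (on_vertex hw)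
        (Nat.succ_injective (h2.symm.trans k))
      exact Sym2.mem_toFinset.1 (h1.tok_mem hE)
    · intro w hw k
      rw [(eq_hub hw).1 k] at h1
      exact Sym2.mem_toFinset.1 (h1.ob_mem hE).1

end Ct

theorem st_ss {V : Type} [DecidableEq V] {Hb x y : Finset V} (h : St Hb x y) : x ⊂ y := by
  refine Finset.ssubset_iff_subset_ne.2 ⟨h.1, ?_⟩
  rintro rfl
  rcases h.2 with h | h | h <;> omega

end OBJ

theorem obj : StmtOBJ := by
  intro tb hy hs V _ _ G F T0 Hb q m tri root nd cur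
  have hT : T0 ∈ Cx F := by
    refine Finset.mem_biUnion.2 ⟨T0, root, Finset.mem_erase.2 ⟨?_, Finset.mem_powerset_self _⟩⟩
    rintro rfl
    exact nd _ root (Finset.empty_subset _)
  have hpa : Pa (Yg F) q m := ⟨fun i hi => ⟨(cur.mem i hi.le).1, (cur.mem (i + 1) hi).1,
    (cur.pa.adj i hi).imp OBJ.st_ss OBJ.st_ss⟩, cur.pa.inj⟩
  obtain ⟨σ, hσ⟩ := hs tb (Finset V) (Yg F) (Cx F) (Fl F) q m T0 (hy V G _ F tri) hpa cur.one
    cur.mem hT ⟨hT, (cur.mem 0 (Nat.zero_le _)).1, Or.inr (OBJ.st_ss cur.e0)⟩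
    ⟨hT, (cur.mem m le_rfl).1, Or.inr (OBJ.st_ss cur.em)⟩
  let c : OBJ.Ct V := ⟨G, F, T0, Hb, q, m, σ, tri, root, nd, cur, hσ, fun v => by
    obtain ⟨a, -, b, -, -, -, h1, -, -, h2, h3, -⟩ := (tb.deg V G _ F tri v (Finset.mem_univ _)).2
    exact ⟨a, b, h1, h2, h3⟩⟩
  exact ⟨c.Obj, Fintype.ofFinite _, _, _, _, _, _, _, _, c.lay⟩

end Pool.Agent.MP_856573_co.H74
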